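import Mathlib
import Pool.Agent.H399R2.Run
import Pool.Agent.H399R2.Window

set_option autoImplicit false

open Pool.Agent.H399R2

namespace Pool.Agent.Results.MP_b5e119_nt.LongDescent

/-- Dichotomy: either `g+1` and `2N-g-1` are both prime or `g` is at most about `3N/4`;
in particular for `N ≥ 2208` both are prime as soon as `g ≥ 7N/9`. -/
theorem result :
    ∀ N : ℕ, 3 ≤ N → ∀ a : ℕ → ℤ, a 1 = (N : ℤ) - 2 →
      (∀ n : ℕ, 2 ≤ n → a n = a (n - 1) -
        ((Int.gcd (a (n - 1)) ((N : ℤ) - (-1) ^ n * ((N : ℤ) - n)) : ℕ) : ℤ)) →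
      ∀ g : ℕ, IsLeast {n : ℕ | 2 ≤ n ∧ a n = 0} g →
        ((Nat.Prime (g + 1) ∧ Nat.Prime (2 * N - g - 1)) ∨
          4 * g + 3 ≤ 3 * N + 2 * Nat.sqrt (2 * N - g - 1)) ∧
        (2208 ≤ N → 7 * N ≤ 9 * g → Nat.Prime (g + 1) ∧ Nat.Prime (2 * N - g - 1)) := by
  intro N hN a ha1 ha f hf
  obtain ⟨⟨hf1, haf⟩, hmin⟩ := hf
  have hmin' : ∀ k, 1 ≤ k → k < f → a k ≠ 0 := by
    intro k hk1 hk2 hk3
    rcases Nat.lt_or_ge k 2 with h | h
    · have : k = 1 := by omega
      subst this
      rw [ha1] at hk3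
      omega
    · have := hmin ⟨h, hk3⟩
      omega
  have hnn : ∀ k, 1 ≤ k → k ≤ f → 0 ≤ a k := by
    intro k hk
    induction k, hk using Nat.le_induction with
    | base => intro _; rw [ha1]; omega
    | succ k hk ih =>
      intro hkf
      have h1 := ih (by omega)
      have hpos : 0 < a k := lt_of_le_of_ne h1 (Ne.symm (hmin' k hk (by omega)))
      rw [ha (k + 1) (by omega), Nat.add_sub_cancel]
      have := Int.le_of_dvd hpos (Int.gcd_dvd_left (a := a k)
        (b := (N : ℤ) - (-1) ^ (k + 1) * ((N : ℤ) - ((k + 1 : ℕ) : ℤ))))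
      linarith
  set V : ℕ → ℤ := fun n => (N : ℤ) - (-1) ^ n * ((N : ℤ) - n) with hVdef
  have hVeven : ∀ n, n % 2 = 0 → V n = n := by
    intro n hn
    have : Even n := Nat.even_iff.mpr hn
    simp only [hVdef]; rw [this.neg_one_pow]; ring
  have hVodd : ∀ n, n % 2 = 1 → V n = 2 * N - n := by
    intro n hn
    have : Odd n := Nat.odd_iff.mpr hn
    simp only [hVdef]; rw [this.neg_one_pow]; ring
  have hseg : Seg (fun k => (a k).natAbs) V 1 f := by
    refine ⟨by omega, ?_, ?_⟩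
    · intro n hn1 hn2
      have h1 := ha (n + 1) (by omega)
      rw [Nat.add_sub_cancel] at h1
      have h2 : (((a n).natAbs : ℕ) : ℤ) = a n := Int.natAbs_of_nonneg (hnn n hn1 (by omega))
      have h3 : (((a (n + 1)).natAbs : ℕ) : ℤ) = a (n + 1) :=
        Int.natAbs_of_nonneg (hnn (n + 1) (by omega) (by omega))
      have : ((((a (n + 1)).natAbs + Int.gcd (((a n).natAbs : ℕ) : ℤ) (V (n + 1)) : ℕ)) : ℤ)
          = (((a n).natAbs : ℕ) : ℤ) := by
        rw [Nat.cast_add, h2, h3, h1]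
        ring
      exact_mod_cast this
    · intro n hn1 hn2
      exact Int.natAbs_pos.mpr (hmin' n hn1 hn2)
  obtain ⟨l, hsl, hle, htr, hineq⟩ := hseg.main 3 1 (fun p => if p = 2 then 1 else 2)
    (by intro p hp; split_ifs <;> norm_num)
    (by
      intro p hp n hn
      split_ifs with h
      · subst h
        rw [one_mul]
        rcases Nat.mod_two_eq_zero_or_one n with h2 | h2
        · rw [hVeven n h2, hVeven (n + 2) (by omega)]
          omega
        · rw [hVodd n h2, hVodd (n + 2) (by omega)]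
          omega
      · rcases Nat.mod_two_eq_zero_or_one n with h2 | h2
        · rw [hVeven n h2, hVeven (n + 2 * p) (by omega)]
          have e1 : ((n + 2 * p : ℕ) : ℤ) = (n : ℤ) + (p : ℤ) * 2 := by push_cast; ring
          rw [e1]
          exact (Int.dvd_add_left (Dvd.intro _ rfl)).mp
        · rw [hVodd n h2, hVodd (n + 2 * p) (by omega)]
          have e1 : 2 * (N : ℤ) - ((n + 2 * p : ℕ) : ℤ) = (2 * (N : ℤ) - n) + (p : ℤ) * (-2) := by
            push_cast; ring
          rw [e1]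
          exact (Int.dvd_add_left (Dvd.intro _ rfl)).mp)
    (fun _ => 0)
    (by
      intro k hk1 hk2 hg
      set g := Int.gcd (((a k).natAbs : ℕ) : ℤ) (V (k + 1)) with hgdef
      have hpp : (Nat.minFac g).Prime := Nat.minFac_prime (by omega)
      have hple : Nat.minFac g ≤ g := Nat.minFac_le (by omega)
      have h2 := hpp.two_le
      split_ifs with h
      · omega
      · omega)
    f (by omega) le_rfl
  have hrun := hseg.run hsl le_rfl htr
  have hx1 : (((a 1).natAbs : ℕ) : ℤ) = N - 2 := by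
    rw [ha1]; exact Int.natAbs_of_nonneg (by omega)
  have hxf : (a f).natAbs = 0 := by rw [haf]; rfl
  have hineq2 : 4 * (f - 1) ≤ 3 * (N - 2) + (f - l) := by
    simp only [Finset.sum_const_zero] at hineq
    omega
  have hfN : f + 1 ≤ N := by
    have h1 := hrun l le_rfl hle
    omega
  -- detection
  have detect : ∀ (p : ℕ), p.Prime → (p ∣ f + 1 ∨ p ∣ 2 * N - f - 1) → f - l < 2 * p := by
    intro p hp hdvd
    by_contra hcon
    push Not at hcon
    have hp2 := hp.two_le
    have suff : ∀ k, l ≤ k → k < f → p ∣ f - k → ¬ ((p : ℤ) ∣ V (k + 1)) := by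
      intro k hk1 hk2 hk3 hk4
      have h1 := htr k hk1 hk2
      have h2 := hrun k hk1 hk2.le
      have h8 : (p : ℤ) ∣ (Int.gcd (((a k).natAbs : ℕ) : ℤ) (V (k + 1)) : ℤ) := by
        apply Int.dvd_coe_gcd _ hk4
        have : (a k).natAbs = f - k := by omega
        rw [this]
        exact Int.natCast_dvd_natCast.mpr hk3
      rw [h1] at h8
      have h9 : p ∣ 1 := by exact_mod_cast h8
      exact hp.one_lt.ne' (Nat.dvd_one.mp h9)
    by_cases h23 : p = 2
    · subst h23
      have h1 := suff (f - 2) (by omega) (by omega) (by omega)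
      rw [hVeven _ (by omega)] at h1
      omega
    have hcop : Nat.Coprime 2 p := by
      rw [Nat.coprime_primes Nat.prime_two hp]; omega
    rcases hdvd with hdvd | hdvd
    · obtain ⟨r, hr1, hr2⟩ := Nat.chineseRemainder hcop 0 (f + 1)
      obtain ⟨k, hk1, hk2, hk3⟩ := window (2 * p) (by omega) r f (by omega)
      have h3 : k + 1 ≡ f + 1 [MOD p] := (hk3.of_dvd (Dvd.intro_left _ rfl)).trans hr2
      have h4 : k ≡ f [MOD p] := Nat.ModEq.add_right_cancel' 1 h3
      have h5 : p ∣ f - k := (Nat.modEq_iff_dvd' (by omega)).mp h4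
      have h6 : k + 1 ≡ 0 [MOD 2] := (hk3.of_dvd (Dvd.intro _ rfl)).trans hr1
      apply suff k (by omega) hk2 h5
      rw [hVeven _ h6]
      exact Int.natCast_dvd_natCast.mpr ((Nat.ModEq.dvd_iff h3 dvd_rfl).mpr hdvd)
    · obtain ⟨r, hr1, hr2⟩ := Nat.chineseRemainder hcop 1 (f + 1)
      obtain ⟨k, hk1, hk2, hk3⟩ := window (2 * p) (by omega) r f (by omega)
      have h3 : k + 1 ≡ f + 1 [MOD p] := (hk3.of_dvd (Dvd.intro_left _ rfl)).trans hr2
      have h4 : k ≡ f [MOD p] := Nat.ModEq.add_right_cancel' 1 h3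
      have h5 : p ∣ f - k := (Nat.modEq_iff_dvd' (by omega)).mp h4
      have h6 : k + 1 ≡ 1 [MOD 2] := (hk3.of_dvd (Dvd.intro _ rfl)).trans hr1
      apply suff k (by omega) hk2 h5
      rw [hVodd _ h6]
      have e1 : 2 * (N : ℤ) - ((k + 1 : ℕ) : ℤ) = ((2 * N - f - 1 : ℕ) : ℤ)
          + ((f - k : ℕ) : ℤ) := by
        omega
      rw [e1]
      exact dvd_add (Int.natCast_dvd_natCast.mpr hdvd) (Int.natCast_dvd_natCast.mpr h5)
  have fin : ∀ p : ℕ, p.Prime → (p ∣ f + 1 ∨ p ∣ 2 * N - f - 1) →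
      p ≤ Nat.sqrt (2 * N - f - 1) →
      4 * f + 3 ≤ 3 * N + 2 * Nat.sqrt (2 * N - f - 1) := by
    intro p hp h1 h2
    have h3 := detect p hp h1
    omega
  have main : (Nat.Prime (f + 1) ∧ Nat.Prime (2 * N - f - 1)) ∨
      4 * f + 3 ≤ 3 * N + 2 * Nat.sqrt (2 * N - f - 1) := by
    by_cases hp1 : Nat.Prime (f + 1)
    · by_cases hp2 : Nat.Prime (2 * N - f - 1)
      · exact Or.inl ⟨hp1, hp2⟩
      · right
        apply fin (Nat.minFac (2 * N - f - 1)) (Nat.minFac_prime (by omega))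
          (Or.inr (Nat.minFac_dvd _))
        rw [Nat.le_sqrt']
        exact (Nat.minFac_sq_le_self (by omega) hp2).trans (by omega)
    · right
      apply fin (Nat.minFac (f + 1)) (Nat.minFac_prime (by omega)) (Or.inl (Nat.minFac_dvd _))
      rw [Nat.le_sqrt']
      exact (Nat.minFac_sq_le_self (by omega) hp1).trans (by omega)
  refine ⟨main, ?_⟩
  intro hN2 hfN2
  rcases main with h | h
  · exact h
  · exfalso
    have hs := Nat.sqrt_le' (2 * N - f - 1)
    set q := Nat.sqrt (2 * N - f - 1) with hq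
    -- 4 f + 3 ≤ 3 N + 2 q, 7 N ≤ 9 f, q^2 ≤ 2 N - f - 1
    have h1 : N + 27 ≤ 18 * q := by omega
    have h2 : 9 * q ^ 2 ≤ 11 * N := by omega
    nlinarith [h1, h2]

end Pool.Agent.Results.MP_b5e119_nt.LongDescent
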